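import Pool.Agent.Helper11.M3.Goals4
import Pool.Agent.Helper28.PP.CCNT

/-!
# Project M3 (MP_fc6b1e_nt, step 2), packet Q_CNT: from bad sets to `cnu` and `cnt₅`
-/

set_option autoImplicit false

namespace Pool.Agent.Helper91.M3

open Finset Pool.Agent.Helper17.PP Pool.Agent.Helper17.PP0 Pool.Agent.Helper17.PP2
open Pool.Agent.Helper11.M3
open Pool.Agent.Helper28.PP (R_smul lam_smul)

/-- **Q_CNT**. -/
theorem q_cnt : Pool.Agent.Helper11.M3.Q_CNT := by
  classical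
  intro p _ B B₀ k U Λ C _ _ _ _ _ _ _ _ _ S N E j₀ b P₁ hb hP h1 h2
  obtain ⟨x, c, hs, hne, hP₁⟩ := hb
  have hcP : c P₁ = 0 := hP₁ P₁ hP
  obtain ⟨q₀, h3, h4⟩ := h1 x c hs hne
  obtain ⟨q, hq, hmax⟩ := Finset.exists_max_image (b.filter fun q' ↦ c q' ≠ 0) S.bl
    ⟨q₀, mem_filter.2 ⟨(hs.supp q₀ h3).1, h3⟩⟩
  rw [mem_filter] at hq
  have hle : ∀ q', c q' ≠ 0 → S.bl q' ≤ S.bl q := fun q' h ↦
    hmax q' (mem_filter.2 ⟨(hs.supp q' h).1, h⟩)
  have hj : j₀ ≤ S.bl q := h4.trans (hle q₀ h3)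
  have hw : S.Wt E b q := h2 q hq.1 (hs.supp q hq.2).2 hj
  have hqP : q ≠ P₁ := fun h ↦ hq.2 (h ▸ hcP)
  have h5 : Fintype.card k - 1 = ((univ : Finset k).erase 0).card := by
    rw [card_erase_of_mem (mem_univ _), card_univ]
  have hinj : Set.InjOn (fun u : k ↦ ((u • x, fun q' ↦ u * c q') : U × (B → k)))
      ((univ : Finset k).erase 0 : Set k) := by
    intro u _ v _ huv
    have h7 : u * c q = v * c q := congrFun (Prod.mk.inj huv).2 q
    exact mul_right_cancel₀ hq.2 h7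
  have hlab : ∀ u : k, (fun q' ↦ u * c q') ∈ lab k b := by
    intro u
    rw [mem_lab]
    intro q' hq'
    by_contra h
    exact hq' (hs.supp q' (right_ne_zero_of_mul h)).1
  have hlt : ∀ q', c q' ≠ 0 → q' ≠ q → q' ∈ b ∧ S.spl q' ∧ S.bl q' < S.bl q := by
    intro q' hc hqq
    have h6 := hs.supp q' hc
    exact ⟨h6.1, h6.2, lt_of_le_of_ne (hle q' hc) (hw.uniq q' h6.1 hqq h6.2)⟩
  refine ⟨q, hw, hj, hqP, ?_, ?_⟩
  · rw [h5]
    unfold cnu
    refine card_le_card_of_injOn _ ?_ hinj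
    intro u hu
    have hu0 : u ≠ 0 := (mem_erase.1 hu).1
    simp only [coe_filter, Set.mem_ofPred_eq, mem_product, mem_univ, true_and]
    refine ⟨hlab u, ⟨?_, mul_ne_zero hu0 hq.2, ?_⟩⟩
    · intro q' h
      have hc : c q' ≠ 0 := right_ne_zero_of_mul h
      by_cases hqq : q' = q
      · exact Or.inl hqq
      · refine Or.inr ?_
        unfold Sys.rs
        rw [mem_filter, mem_erase]
        obtain ⟨e1, e2, e3⟩ := hlt q' hc hqq
        exact ⟨⟨hqq, e1⟩, e2, e3⟩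
    · intro q' h
      unfold Sys.rt at h
      rw [mem_filter] at h
      rw [R_smul]
      rw [hs.loc q' (mem_erase.1 h.1).2 h.2.1, mul_zero]
  · rw [h5]
    unfold cnt₅
    refine card_le_card_of_injOn _ ?_ hinj
    intro u hu
    have hu0 : u ≠ 0 := (mem_erase.1 hu).1
    simp only [coe_filter, Set.mem_ofPred_eq, mem_product, mem_univ, true_and]
    refine ⟨hlab u, ⟨?_, mul_ne_zero hu0 hq.2, ?_, ?_⟩, ?_, ?_⟩
    · intro q' h
      have hc : c q' ≠ 0 := right_ne_zero_of_mul h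
      by_cases hqq : q' = q
      · exact Or.inl hqq
      · refine Or.inr ?_
        unfold rs₄
        rw [mem_filter, mem_erase, mem_erase]
        obtain ⟨e1, e2, e3⟩ := hlt q' hc hqq
        exact ⟨⟨fun h ↦ hc (h ▸ hcP), hqq, e1⟩, e2, e3⟩
    · rw [lam_smul, hs.lam, smul_zero]
    · intro q' h
      unfold sp at h
      rw [mem_filter, mem_erase, mem_erase] at h
      rw [R_smul, hs.loc q' h.1.2.2 h.2, mul_zero]
    · rw [R_smul, hs.loc q hw.mem hw.spl, mul_zero]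
    · intro hsp
      rw [R_smul, hs.loc P₁ hP.mem hsp, mul_zero]

end Pool.Agent.Helper91.M3
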